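import Pool.Agent.H10R3.SC.Stmts3
import Pool.Agent.H444.FA.ExtL
import Pool.Agent.H444.FA.StepE
import Pool.Agent.H10R3.SC.TFind

set_option autoImplicit false
set_option linter.unusedSectionVars false

open Finset

namespace Pool.Agent.H410R3.CX

open Pool.Agent.Helper347.Sab
open Pool.Agent.H444.FA
open Pool.Agent.H10R3.SC

section

variable {V E : Type} [Fintype V] [DecidableEq V] [Fintype E] [DecidableEq E]

theorem dg_le {G : MGraph V E} {A B : Finset E} (h : A ⊆ B) (v : V) : dg G A v ≤ dg G B v :=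
  card_le_card (filter_subset_filter _ h)

/-- if `S` contains all edges of `A` at `v`, the intersection with `P ⊆ A` has the degree of `P` -/
theorem dg_inter_full {G : MGraph V E} {A S P : Finset E} (hS : S ⊆ A) (hP : P ⊆ A) (v : V)
    (h : dg G S v = dg G A v) : dg G (S ∩ P) v = dg G P v := by
  unfold dg at h ⊢
  have h1 : (S.filter fun e => v ∈ G.ends e) = A.filter fun e => v ∈ G.ends e :=
    eq_of_subset_of_card_le (filter_subset_filter _ hS) h.ge
  congr 1
  ext e
  simp only [mem_filter, mem_inter]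
  constructor
  · rintro ⟨⟨_, h2⟩, h3⟩; exact ⟨h2, h3⟩
  · rintro ⟨h2, h3⟩
    have h4 : e ∈ A.filter fun e => v ∈ G.ends e := mem_filter.2 ⟨hP h2, h3⟩
    rw [← h1] at h4
    exact ⟨⟨(mem_filter.1 h4).1, h2⟩, h3⟩

theorem degA_leg {G : MGraph V E} {C : Finset E} {X : Finset V} {d : ℕ} {y x : Fin d → V}
    {ℓ : Fin d → E} (hcr : Cr G X y x ℓ) (j : Fin d) (hj : ℓ j ∈ C) :
    dg G C (y j) = dg G (C ∩ ins G univ X) (y j) + 1 := by
  unfold dg
  have h1 : (C.filter fun e => y j ∈ G.ends e) =
      insert (ℓ j) ((C ∩ ins G univ X).filter fun e => y j ∈ G.ends e) := by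
    ext e
    simp only [mem_filter, mem_insert, mem_inter]
    constructor
    · rintro ⟨he, hye⟩
      by_cases hin : e ∈ ins G univ X
      · exact Or.inr ⟨⟨he, hin⟩, hye⟩
      · left
        have hcut : e ∈ cut G univ X := by
          unfold cut
          rw [mem_filter]
          refine ⟨mem_univ _, ⟨y j, hye, hcr.yin j⟩, ?_⟩
          by_contra hcon
          push Not at hcon
          apply hin
          unfold ins
          rw [mem_filter]
          exact ⟨mem_univ _, hcon⟩
        obtain ⟨i, rfl⟩ := (hcr.cut e).1 hcut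
        rw [hcr.ends i, Sym2.mem_iff] at hye
        rcases hye with h | h
        · rw [hcr.yinj h]
        · exact absurd (hcr.yin j) (by rw [h]; exact hcr.xout i)
    · rintro (rfl | ⟨⟨he, -⟩, hye⟩)
      · exact ⟨hj, by rw [hcr.ends j]; exact Sym2.mem_mk_left _ _⟩
      · exact ⟨he, hye⟩
  rw [h1, card_insert_of_notMem]
  intro h2
  have h3 := (mem_inter.1 (mem_filter.1 h2).1).2
  unfold ins at h3
  have h4 := (mem_filter.1 h3).2 (x j) (by rw [hcr.ends j]; exact Sym2.mem_mk_right _ _)
  exact hcr.xout j h4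

theorem degA_other {G : MGraph V E} {C : Finset E} {X : Finset V} {d : ℕ} {y x : Fin d → V}
    {ℓ : Fin d → E} (hcr : Cr G X y x ℓ) (v : V) (hv : ∀ j, v ≠ y j) :
    dg G (C ∩ ins G univ X) v = 0 ∨ dg G (C ∩ ins G univ X) v = dg G C v := by
  by_cases hvX : v ∈ X
  · right
    unfold dg
    congr 1
    ext e
    simp only [mem_filter, mem_inter]
    constructor
    · rintro ⟨⟨h1, -⟩, h2⟩; exact ⟨h1, h2⟩
    · rintro ⟨h1, h2⟩
      refine ⟨⟨h1, ?_⟩, h2⟩
      by_contra hin
      have hcut : e ∈ cut G univ X := by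
        unfold cut
        rw [mem_filter]
        refine ⟨mem_univ _, ⟨v, h2, hvX⟩, ?_⟩
        by_contra hcon
        push Not at hcon
        apply hin
        unfold ins
        rw [mem_filter]
        exact ⟨mem_univ _, hcon⟩
      obtain ⟨i, rfl⟩ := (hcr.cut e).1 hcut
      rw [hcr.ends i, Sym2.mem_iff] at h2
      rcases h2 with h | h
      · exact hv i h
      · exact absurd hvX (by rw [h]; exact hcr.xout i)
  · left
    unfold dg
    rw [card_eq_zero, filter_eq_empty_iff]
    intro e he hve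
    have h3 := (mem_inter.1 he).2
    unfold ins at h3
    exact hvX ((mem_filter.1 h3).2 v hve)

end

theorem circ4 (h : TMinCirc) : TCirc4 := by
  intro V E _ _ _ _ G C hC X y x ℓ hcr hℓ m k hm0 hk0 hmk hP a b g hgdt hg T T1 T2 hT1 hT2 hTy hT1y
    hTw hmin
  obtain ⟨P, hPA, hPodd⟩ := hP
  set A : Finset E := C ∩ ins G univ X with hA
  set D : Finset (E ⊕ Fin b) := newD G C X T with hD
  have hAC : A ⊆ C := inter_subset_left
  have hC2 := hC.2.1
  -- degrees in `A`
  have hAy : ∀ j, dg G A (y j) = 1 := by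
    intro j
    have h1 := degA_leg hcr j (hℓ j)
    have h2 := hC2 (y j)
    rw [← hA] at h1
    omega
  have hAo : ∀ v, (∀ j, v ≠ y j) → dg G A v = 0 ∨ dg G A v = 2 := by
    intro v hv
    have h1 := degA_other (C := C) hcr v hv
    have h2 := hC2 v
    rw [← hA] at h1
    omega
  have hgo : ∀ (v : V), (∀ j, v ≠ y j) → ∀ k', ¬ (Sum.inl v : V ⊕ Fin a) ∈ g k' := by
    intro v hv k' hk'
    obtain ⟨j, hj⟩ := hgdt.old k' v hk'
    exact hv j hj
  -- members of `D`
  have hDinl : ∀ e, (Sum.inl e : E ⊕ Fin b) ∈ D ↔ e ∈ A := by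
    intro e
    rw [hD]
    unfold newD
    rw [mem_union, mem_inE]
    simp [hA]
  have hDinr : ∀ k', (Sum.inr k' : E ⊕ Fin b) ∈ D ↔ k' ∈ T := by
    intro k'
    rw [hD]
    unfold newD
    rw [mem_union]
    constructor
    · rintro (h1 | h1)
      · exact absurd h1 (inr_notMem_inE _ _)
      · simpa using h1
    · intro h1
      right
      simpa using h1
  -- the gadget part
  let gp : Finset (E ⊕ Fin b) → Finset (Fin b) := fun Z => univ.filter fun k' => Sum.inr k' ∈ Z
  have hgp : ∀ Z k', k' ∈ gp Z ↔ (Sum.inr k' : E ⊕ Fin b) ∈ Z := by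
    intro Z k'
    simp [gp]
  have hgpT : ∀ Z, Z ⊆ D → gp Z ⊆ T := by
    intro Z hZ k' hk'
    rw [hgp] at hk'
    exact (hDinr k').1 (hZ hk')
  have hold : ∀ Z, Z ⊆ D → oldP Z ⊆ A := by
    intro Z hZ e he
    rw [mem_oldP] at he
    exact (hDinl e).1 (hZ he)
  have hdo : ∀ Z v, dg (ext G g hg) Z (Sum.inl v) = dg G (oldP Z) v +
      ((gp Z).filter fun k' => (Sum.inl v : V ⊕ Fin a) ∈ g k').card := by
    intro Z v
    rw [dg_old]
    congr 2
    ext k'
    simp [gp]
  have hdn : ∀ Z w, dg (ext G g hg) Z (Sum.inr w) =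
      ((gp Z).filter fun k' => (Sum.inr w : V ⊕ Fin a) ∈ g k').card := by
    intro Z w
    rw [dg_new]
    congr 1
    ext k'
    simp [gp]
  have hgpD : gp D = T := by
    ext k'
    rw [hgp, hDinr]
  have holdD : oldP D = A := by
    ext e
    rw [mem_oldP, hDinl]
  -- degrees in `D`
  have hDdeg : ∀ v, dg (ext G g hg) D v = 0 ∨ dg (ext G g hg) D v = 2 := by
    rintro (v | w)
    · rw [hdo, hgpD, holdD]
      by_cases hv : ∃ j, v = y j
      · obtain ⟨j, rfl⟩ := hv
        rw [hAy j, hTy j]
        right; rfl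
      · push Not at hv
        have h1 : (T.filter fun k' => (Sum.inl v : V ⊕ Fin a) ∈ g k') = ∅ := by
          rw [filter_eq_empty_iff]
          intro k' _
          exact hgo v hv k'
        rw [h1, card_empty, add_zero]
        exact hAo v hv
    · rw [hdn, hgpD]
      exact hTw w
  -- empty gadget part
  have hempty : ∀ Z, Z ⊆ D → Ev (ext G g hg) Z → gp Z = ∅ → Z = ∅ := by
    intro Z hZ hev hg0
    by_contra hne
    obtain ⟨e, he⟩ := nonempty_iff_ne_empty.2 hne
    rcases e with e | k'
    · have h1 := (h V E G C).1 hC (oldP Z) ((hold Z hZ).trans hAC) ⟨e, (mem_oldP Z e).2 he⟩ (by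
        intro v
        have h2 := hev (Sum.inl v)
        rw [hdo, hg0, filter_empty, card_empty, add_zero] at h2
        exact h2)
      have h3 : ℓ 0 ∈ oldP Z := by rw [h1]; exact hℓ 0
      have h4 := hold Z hZ h3
      rw [hA] at h4
      have h5 := (mem_inter.1 h4).2
      unfold ins at h5
      exact hcr.xout 0 ((mem_filter.1 h5).2 (x 0) (by rw [hcr.ends 0]; exact Sym2.mem_mk_right _ _))
    · have h1 : k' ∈ gp Z := (hgp Z k').2 he
      rw [hg0] at h1
      exact absurd h1 (notMem_empty _)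
  -- complement
  have hcomp : ∀ Z, Z ⊆ D → Ev (ext G g hg) Z → Ev (ext G g hg) (D \ Z) := by
    intro Z hZ hev v
    have h1 := dg_sd (ext G g hg) D Z hZ v
    have h2 := hDdeg v
    have h3 := hev v
    have h4 : Even (dg (ext G g hg) D v) := by
      rcases h2 with h2 | h2 <;> rw [h2] <;> decide
    rw [h1] at h4
    exact (Nat.even_add.1 h4).1 h3
  have hgpc : ∀ Z, gp (D \ Z) = T \ gp Z := by
    intro Z
    ext k'
    rw [hgp, mem_sdiff, mem_sdiff, hDinr, hgp]
  -- gadget part `T1`
  have hT1c : ∀ Z, Z ⊆ D → Ev (ext G g hg) Z → gp Z = T1 → False := by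
    intro Z hZ hev hg1
    set Z1 := oldP Z with hZ1
    have hZ1A : Z1 ⊆ A := hold Z hZ
    have hle := fun v => dg_le (G := G) hZ1A v
    have hey : ∀ j, Even (dg G Z1 (y j) + if j = 0 ∨ j = k then 1 else 0) := by
      intro j
      have h2 := hev (Sum.inl (y j))
      rw [hdo, hg1, hT1y j] at h2
      exact h2
    have heo : ∀ v, (∀ j, v ≠ y j) → Even (dg G Z1 v) := by
      intro v hv
      have h2 := hev (Sum.inl v)
      have h3 : ((gp Z).filter fun k' => (Sum.inl v : V ⊕ Fin a) ∈ g k') = ∅ := by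
        rw [filter_eq_empty_iff]
        intro k' _
        exact hgo v hv k'
      rw [hdo, h3, card_empty, add_zero] at h2
      exact h2
    have hfull : ∀ v, dg G Z1 v = 0 ∨ dg G Z1 v = dg G A v := by
      intro v
      have h1 := hle v
      by_cases hv : ∃ j, v = y j
      · obtain ⟨j, rfl⟩ := hv
        have h2 := hAy j
        omega
      · push Not at hv
        have h2 := hAo v hv
        obtain ⟨r, hr⟩ := heo v hv
        omega
    have hpar : ∀ v, v ≠ y 0 → Even (dg G (Z1 ∩ P) v) := by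
      intro v hv
      rcases hfull v with h1 | h1
      · have h2 : dg G (Z1 ∩ P) v = 0 := by
          have := dg_le (G := G) (inter_subset_left (s₁ := Z1) (s₂ := P)) v
          omega
        rw [h2]; exact Even.zero
      · rw [dg_inter_full hZ1A hPA v h1]
        by_contra hodd
        rw [Nat.not_even_iff_odd, hPodd v] at hodd
        rcases hodd with h2 | h2
        · exact hv h2
        · subst h2
          have h3 := hey m
          rw [if_neg (by
            rintro (h4 | h4)
            · exact hm0 h4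
            · exact hmk h4), add_zero, h1, hAy m] at h3
          exact absurd h3 (by decide)
    have hodd0 : Odd (dg G (Z1 ∩ P) (y 0)) := by
      have h1 : dg G Z1 (y 0) = dg G A (y 0) := by
        rcases hfull (y 0) with h2 | h2
        · have h3 := hey 0
          rw [if_pos (Or.inl rfl), h2] at h3
          exact absurd h3 (by decide)
        · exact h2
      rw [dg_inter_full hZ1A hPA (y 0) h1, hPodd]
      exact Or.inl rfl
    have hsum := Pool.Agent.H10R3.SC.Find.handshake G (Z1 ∩ P)
    rw [← Finset.add_sum_erase _ _ (mem_univ (y 0))] at hsum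
    have h5 : Even (∑ v ∈ univ.erase (y 0), dg G (Z1 ∩ P) v) := by
      apply Finset.even_sum
      intro v hv
      exact hpar v (ne_of_mem_erase hv)
    have h6 : Odd (dg G (Z1 ∩ P) (y 0) + ∑ v ∈ univ.erase (y 0), dg G (Z1 ∩ P) v) :=
      hodd0.add_even h5
    rw [hsum] at h6
    exact (Nat.not_odd_iff_even.2 (even_two_mul _)) h6
  -- conclusion
  refine (h (V ⊕ Fin a) (E ⊕ Fin b) (ext G g hg) D).2 ?_ hDdeg ?_
  · have h1 : (T.filter fun k' => (Sum.inl (y 0) : V ⊕ Fin a) ∈ g k').Nonempty := by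
      rw [← card_pos, hTy 0]; norm_num
    obtain ⟨k', hk'⟩ := h1
    exact ⟨Sum.inr k', (hDinr k').2 (mem_filter.1 hk').1⟩
  · intro Z hZ hne hev
    have hcases := hmin (gp Z) (hgpT Z hZ) (by
      intro w
      rw [← hdn]
      exact hev (Sum.inr w))
    rcases hcases with h1 | h1 | h1 | h1
    · have := hempty Z hZ hev h1
      rw [this] at hne
      exact absurd hne (by simp)
    · exact (hT1c Z hZ hev h1).elim
    · refine (hT1c (D \ Z) sdiff_subset (hcomp Z hZ hev) ?_).elim
      rw [hgpc, h1, hT2, Finset.sdiff_sdiff_eq_self hT1]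
    · have h2 := hempty (D \ Z) sdiff_subset (hcomp Z hZ hev) (by rw [hgpc, h1, sdiff_self]; rfl)
      exact (hZ.antisymm (sdiff_eq_empty_iff_subset.1 h2))

end Pool.Agent.H410R3.CX
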